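import Mathlib

/-!
# Poisson summation in several variables for functions with Gaussian decay
-/

set_option autoImplicit false

open MeasureTheory Topology Filter Set

namespace Pool.Agent.Y773

/-- Gaussian decay -/
def GD {ι : Type} [Fintype ι] (g : (ι → ℝ) → ℂ) : Prop :=
  ∃ C c : ℝ, 0 < c ∧ ∀ z, ‖g z‖ ≤ C * Real.exp (-c * ‖z‖ ^ 2)

section

variable {ι : Type} [Fintype ι]

lemma summable_exp_int {c : ℝ} (hc : 0 < c) :
    Summable fun m : ι → ℤ => Real.exp (-c * ‖(fun i => (m i : ℝ))‖ ^ 2) := by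
  classical
  -- compare with the product of one-dimensional series
  have h1 : ∀ c : ℝ, 0 < c → Summable fun m : ℤ => Real.exp (-c * (m : ℝ) ^ 2) := by
    intro c hc
    have h := (summable_jacobiTheta₂_term_iff 0 (((c / Real.pi : ℝ) : ℂ) * Complex.I)).2 (by
      simp only [Complex.mul_im, Complex.ofReal_re, Complex.I_im, mul_one, Complex.ofReal_im,
        Complex.I_re, mul_zero, add_zero]
      positivity)
    refine h.norm.congr fun n => ?_
    rw [norm_jacobiTheta₂_term]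
    congr 1
    simp
    field_simp
  set n : ℝ := Fintype.card ι + 1 with hn
  have hn0 : 0 < n := by positivity
  have hs := h1 (c / n) (by positivity)
  -- summability of the product
  have hp : Summable fun m : ι → ℤ => ∏ i, Real.exp (-(c / n) * (m i : ℝ) ^ 2) := by
    have : ∀ (s : Finset (ι → ℤ)), ∑ m ∈ s, ∏ i, Real.exp (-(c / n) * (m i : ℝ) ^ 2) ≤
        ∏ _i : ι, ∑' k : ℤ, Real.exp (-(c / n) * (k : ℝ) ^ 2) := by
      intro s
      let t : ι → Finset ℤ := fun i => s.image fun m => m i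
      have hst : s ⊆ Fintype.piFinset t := by
        intro m hm
        rw [Fintype.mem_piFinset]
        intro i
        exact Finset.mem_image_of_mem (fun m : ι → ℤ => m i) hm
      calc ∑ m ∈ s, ∏ i, Real.exp (-(c / n) * (m i : ℝ) ^ 2)
          ≤ ∑ m ∈ Fintype.piFinset t, ∏ i, Real.exp (-(c / n) * (m i : ℝ) ^ 2) :=
            Finset.sum_le_sum_of_subset_of_nonneg hst
              (fun _ _ _ => Finset.prod_nonneg fun _ _ => (Real.exp_pos _).le)
        _ = ∏ i, ∑ k ∈ t i, Real.exp (-(c / n) * (k : ℝ) ^ 2) :=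
            (Finset.prod_univ_sum t (fun i k => Real.exp (-(c / n) * (k : ℝ) ^ 2))).symm
        _ ≤ _ := Finset.prod_le_prod (fun _ _ => Finset.sum_nonneg fun _ _ => (Real.exp_pos _).le)
            (fun i _ => hs.sum_le_tsum _ (fun _ _ => (Real.exp_pos _).le))
    exact summable_of_sum_le (fun _ => Finset.prod_nonneg fun _ _ => (Real.exp_pos _).le) this
  refine Summable.of_nonneg_of_le (fun _ => (Real.exp_pos _).le) (fun m => ?_) hp
  rw [← Real.exp_sum]
  apply Real.exp_le_exp.2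
  rw [← Finset.mul_sum]
  have h2 : ∑ i, (m i : ℝ) ^ 2 ≤ n * ‖(fun i => (m i : ℝ))‖ ^ 2 := by
    calc ∑ i, (m i : ℝ) ^ 2 ≤ ∑ _i : ι, ‖(fun i => (m i : ℝ))‖ ^ 2 := by
          refine Finset.sum_le_sum fun i _ => ?_
          have := norm_le_pi_norm (fun i => (m i : ℝ)) i
          rw [← sq_abs]
          exact pow_le_pow_left₀ (abs_nonneg _) this 2
      _ = Fintype.card ι * ‖(fun i => (m i : ℝ))‖ ^ 2 := by simp
      _ ≤ _ := by rw [hn]; nlinarith [sq_nonneg ‖(fun i => (m i : ℝ))‖]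
  have h3 : c / n * ∑ i, (m i : ℝ) ^ 2 ≤ c * ‖(fun i => (m i : ℝ))‖ ^ 2 := by
    calc c / n * ∑ i, (m i : ℝ) ^ 2 ≤ c / n * (n * ‖(fun i => (m i : ℝ))‖ ^ 2) := by gcongr
      _ = _ := by field_simp
  linarith

/-- the lattice point of `m` -/
def lp (m : ι → ℤ) : ι → ℝ := fun i => (m i : ℝ)

lemma gd_bound {g : (ι → ℝ) → ℂ} (hg : GD g) (R : ℝ) :
    ∃ C c : ℝ, 0 ≤ C ∧ 0 < c ∧ ∀ z, ‖z‖ ≤ R → ∀ m : ι → ℤ,
      ‖g (z + lp m)‖ ≤ C * Real.exp (-c * ‖lp m‖ ^ 2) := by
  obtain ⟨C, c, hc, h⟩ := hg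
  refine ⟨|C| * Real.exp (c * R ^ 2), c / 2, by positivity, by positivity, fun z hz m => ?_⟩
  have h1 := h (z + lp m)
  have h2 : ‖lp m‖ ≤ ‖z + lp m‖ + R := by
    have : lp m = (z + lp m) - z := by simp
    calc ‖lp m‖ = ‖(z + lp m) - z‖ := by rw [← this]
      _ ≤ ‖z + lp m‖ + ‖z‖ := norm_sub_le _ _
      _ ≤ _ := by linarith
  have h3 : ‖lp m‖ ^ 2 ≤ 2 * ‖z + lp m‖ ^ 2 + 2 * R ^ 2 := by
    have : ‖lp m‖ ^ 2 ≤ (‖z + lp m‖ + R) ^ 2 := pow_le_pow_left₀ (norm_nonneg _) h2 2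
    nlinarith [sq_nonneg (‖z + lp m‖ - R)]
  calc ‖g (z + lp m)‖ ≤ C * Real.exp (-c * ‖z + lp m‖ ^ 2) := h1
    _ ≤ |C| * Real.exp (-c * ‖z + lp m‖ ^ 2) := by gcongr; exact le_abs_self C
    _ ≤ |C| * (Real.exp (c * R ^ 2) * Real.exp (-(c / 2) * ‖lp m‖ ^ 2)) := by
        rw [← Real.exp_add]
        gcongr
        nlinarith
    _ = _ := by ring

lemma summable_gd {g : (ι → ℝ) → ℂ} (hg : GD g) (z : ι → ℝ) :
    Summable fun m : ι → ℤ => ‖g (z + lp m)‖ := by
  obtain ⟨C, c, hC, hc, h⟩ := gd_bound hg ‖z‖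
  exact Summable.of_nonneg_of_le (fun _ => norm_nonneg _) (fun m => h z le_rfl m)
    ((summable_exp_int hc).mul_left C)

/-- periodisation -/
noncomputable def per (g : (ι → ℝ) → ℂ) (z : ι → ℝ) : ℂ := ∑' m : ι → ℤ, g (z + lp m)

lemma continuous_per {g : (ι → ℝ) → ℂ} (hg : GD g) (hc : Continuous g) : Continuous (per g) := by
  rw [continuous_iff_continuousAt]
  intro z0
  obtain ⟨C, c, hC, hc', h⟩ := gd_bound hg (‖z0‖ + 1)
  have h1 : ContinuousOn (per g) (Metric.ball 0 (‖z0‖ + 1)) := by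
    refine continuousOn_tsum (u := fun m : ι → ℤ => C * Real.exp (-c * ‖lp m‖ ^ 2)) ?_ ?_ ?_
    · intro m
      exact (hc.comp (continuous_id.add continuous_const)).continuousOn
    · exact (summable_exp_int hc').mul_left C
    · intro m z hz
      exact h z (by simpa using (mem_ball_zero_iff.1 hz).le) m
  exact h1.continuousAt (Metric.isOpen_ball.mem_nhds (by simp))

omit [Fintype ι] in
lemma per_add_int {g : (ι → ℝ) → ℂ} (z : ι → ℝ) (k : ι → ℤ) : per g (z + lp k) = per g z := by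
  unfold per
  rw [← (Equiv.addLeft k).tsum_eq (fun m : ι → ℤ => g (z + lp m))]
  refine tsum_congr fun m => ?_
  congr 1
  funext i
  simp [lp]
  ring

/-- the projection to the torus -/
def toT (z : ι → ℝ) : UnitAddTorus ι := fun i => (z i : UnitAddCircle)

omit [Fintype ι] in
lemma toT_eq {z w : ι → ℝ} (h : toT z = toT w) : ∃ k : ι → ℤ, z = w + lp k := by
  have h1 : ∀ i, ∃ k : ℤ, z i = w i + k := by
    intro i
    have h2 : ((z i : ℝ) : UnitAddCircle) = ((w i : ℝ) : UnitAddCircle) := congrFun h i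
    have h3 : ((z i - w i : ℝ) : UnitAddCircle) = 0 := by
      rw [AddCircle.coe_sub, h2, sub_self]
    rw [AddCircle.coe_eq_zero_iff] at h3
    obtain ⟨n, hn⟩ := h3
    refine ⟨n, ?_⟩
    simp at hn
    linarith
  choose k hk using h1
  exact ⟨k, funext hk⟩

omit [Fintype ι] in
lemma toT_quot : IsOpenQuotientMap (toT (ι := ι)) := by
  have : toT (ι := ι) = Pi.map (fun _ : ι => (QuotientAddGroup.mk : ℝ → UnitAddCircle)) := by
    funext z i
    rfl
  rw [this]
  exact IsOpenQuotientMap.piMap fun _ => QuotientAddGroup.isOpenQuotientMap_mk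

/-- the periodisation on the torus -/
noncomputable def perT {g : (ι → ℝ) → ℂ} (hg : GD g) (hc : Continuous g) : C(UnitAddTorus ι, ℂ) where
  toFun t := per g (Function.surjInv (toT_quot (ι := ι)).surjective t)
  continuous_toFun := by
    rw [(toT_quot (ι := ι)).isQuotientMap.continuous_iff]
    have : (fun t => per g (Function.surjInv (toT_quot (ι := ι)).surjective t)) ∘ toT = per g := by
      funext z
      obtain ⟨k, hk⟩ := toT_eq (Function.surjInv_eq (toT_quot (ι := ι)).surjective (toT z))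
      simp only [Function.comp_apply]
      rw [hk]
      exact per_add_int z k
    rw [this]
    exact continuous_per hg hc

lemma perT_apply {g : (ι → ℝ) → ℂ} (hg : GD g) (hc : Continuous g) (z : ι → ℝ) :
    perT hg hc (toT z) = per g z := by
  obtain ⟨k, hk⟩ := toT_eq (Function.surjInv_eq (toT_quot (ι := ι)).surjective (toT z))
  show per g (Function.surjInv (toT_quot (ι := ι)).surjective (toT z)) = per g z
  rw [hk]
  exact per_add_int z k

/-- the additive character -/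
noncomputable def ech (k : ι → ℤ) (z : ι → ℝ) : ℂ :=
  Complex.exp (2 * Real.pi * Complex.I * ((∑ i, (k i : ℝ) * z i : ℝ) : ℂ))

lemma norm_ech (k : ι → ℤ) (z : ι → ℝ) : ‖ech k z‖ = 1 := by
  unfold ech
  rw [show 2 * (Real.pi : ℂ) * Complex.I * ((∑ i, (k i : ℝ) * z i : ℝ) : ℂ) =
    ((2 * Real.pi * ∑ i, (k i : ℝ) * z i : ℝ) : ℂ) * Complex.I by push_cast; ring]
  exact Complex.norm_exp_ofReal_mul_I _

lemma continuous_ech (k : ι → ℤ) : Continuous (ech k) := by
  unfold ech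
  fun_prop

lemma ech_add_int (k : ι → ℤ) (z : ι → ℝ) (m : ι → ℤ) : ech k (z + lp m) = ech k z := by
  unfold ech lp
  have : ((∑ i, (k i : ℝ) * (z + fun i => (m i : ℝ)) i : ℝ) : ℂ) =
      ((∑ i, (k i : ℝ) * z i : ℝ) : ℂ) + ((∑ i, k i * m i : ℤ) : ℂ) := by
    push_cast
    rw [← Finset.sum_add_distrib]
    refine Finset.sum_congr rfl fun i _ => ?_
    simp
    ring
  rw [this, mul_add, Complex.exp_add]
  have h2 : Complex.exp (2 * Real.pi * Complex.I * ((∑ i, k i * m i : ℤ) : ℂ)) = 1 := by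
    rw [Complex.exp_eq_one_iff]
    exact ⟨∑ i, k i * m i, by ring⟩
  rw [h2, mul_one]

lemma mFourier_toT (k : ι → ℤ) (z : ι → ℝ) : UnitAddTorus.mFourier k (toT z) = ech k z := by
  unfold UnitAddTorus.mFourier ech toT
  simp only [ContinuousMap.coe_mk]
  have : ∀ i, (fourier (k i)) ((z i : ℝ) : UnitAddCircle) =
      Complex.exp (2 * Real.pi * Complex.I * ((k i : ℝ) * z i : ℝ)) := by
    intro i
    rw [fourier_coe_apply]
    congr 1
    push_cast
    ring
  simp_rw [this]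
  rw [← Complex.exp_sum, ← Finset.mul_sum]
  push_cast
  rfl


lemma GD.integrable {g : (ι → ℝ) → ℂ} (hg : GD g) (hc : Continuous g) : Integrable g := by
  classical
  obtain ⟨C, c, hc0, h⟩ := hg
  set n : ℝ := Fintype.card ι + 1 with hn
  have hn0 : 0 < n := by positivity
  have h1 : Integrable (fun z : ι → ℝ => ∏ i, Real.exp (-(c / n) * z i ^ 2)) :=
    MeasureTheory.Integrable.fintype_prod (𝕜 := ℝ)
      (f := fun (_ : ι) (x : ℝ) => Real.exp (-(c / n) * x ^ 2))
      fun _ => integrable_exp_neg_mul_sq (by positivity)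
  refine (h1.const_mul |C|).mono' hc.aestronglyMeasurable (Eventually.of_forall fun z => ?_)
  refine (h z).trans ?_
  refine (mul_le_mul_of_nonneg_right (le_abs_self C) (Real.exp_pos _).le).trans ?_
  refine mul_le_mul_of_nonneg_left ?_ (abs_nonneg C)
  rw [← Real.exp_sum]
  apply Real.exp_le_exp.2
  rw [← Finset.mul_sum]
  have h2 : ∑ i, z i ^ 2 ≤ n * ‖z‖ ^ 2 := by
    calc ∑ i, z i ^ 2 ≤ ∑ _i : ι, ‖z‖ ^ 2 := by
          refine Finset.sum_le_sum fun i _ => ?_
          have := norm_le_pi_norm z i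
          rw [← sq_abs]
          exact pow_le_pow_left₀ (abs_nonneg _) this 2
      _ = Fintype.card ι * ‖z‖ ^ 2 := by simp
      _ ≤ _ := by rw [hn]; nlinarith [sq_nonneg ‖z‖]
  have h3 : c / n * ∑ i, z i ^ 2 ≤ c * ‖z‖ ^ 2 := by
    calc c / n * ∑ i, z i ^ 2 ≤ c / n * (n * ‖z‖ ^ 2) := by gcongr
      _ = _ := by field_simp
  linarith

/-- unfolding over the unit cube -/
lemma integral_cube (f : (ι → ℝ) → ℂ) (hf : Integrable f) :
    ∫ z, f z = ∑' m : ι → ℤ, ∫ z in {x : ι → ℝ | ∀ i, x i ∈ Ioc (0 : ℝ) (0 + 1)}, f (z + lp m) := by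
  classical
  have hcube : {x : ι → ℝ | ∀ i, x i ∈ Ioc (0 : ℝ) (0 + 1)} =ᵐ[volume]
      ZSpan.fundamentalDomain (Pi.basisFun ℝ ι) := by
    rw [ZSpan.fundamentalDomain_pi_basisFun]
    have e1 : {x : ι → ℝ | ∀ i, x i ∈ Ioc (0 : ℝ) (0 + 1)} = Set.pi Set.univ fun _ => Ioc (0 : ℝ) 1 := by
      ext x
      simp
    rw [e1]
    exact (MeasureTheory.Measure.univ_pi_Ioc_ae_eq_Icc (μ := fun _ : ι => (volume : Measure ℝ))
      (f := fun _ => 0) (g := fun _ => 1)).trans
      (MeasureTheory.Measure.univ_pi_Ico_ae_eq_Icc (μ := fun _ : ι => (volume : Measure ℝ))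
      (f := fun _ => 0) (g := fun _ => 1)).symm
  have hfd := ZSpan.isAddFundamentalDomain (Pi.basisFun ℝ ι) (volume : Measure (ι → ℝ))
  have : VAddInvariantMeasure (Submodule.span ℤ (Set.range (Pi.basisFun ℝ ι))) (ι → ℝ) volume :=
    inferInstanceAs <| VAddInvariantMeasure
      (Submodule.span ℤ (Set.range (Pi.basisFun ℝ ι))).toAddSubgroup (ι → ℝ) volume
  rw [hfd.integral_eq_tsum'' f hf]
  let e : (ι → ℤ) ≃ Submodule.span ℤ (Set.range (Pi.basisFun ℝ ι)) := by
    refine Equiv.ofBijective (fun m => ⟨lp m, ?_⟩) ⟨?_, ?_⟩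
    · have : lp m = ∑ i, m i • (Pi.basisFun ℝ ι) i := by
        funext j
        simp [lp, Pi.single_apply, Finset.sum_apply]
      rw [this]
      exact Submodule.sum_mem _ fun i _ => Submodule.smul_mem _ _ (Submodule.subset_span ⟨i, rfl⟩)
    · intro m k h
      funext i
      have : lp m i = lp k i := congrFun (congrArg Subtype.val h) i
      simpa [lp] using this
    · intro ⟨v, hv⟩
      rw [Submodule.mem_span_range_iff_exists_fun] at hv
      obtain ⟨c, hc⟩ := hv
      refine ⟨c, Subtype.ext ?_⟩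
      simp only
      rw [← hc]
      funext j
      simp [lp, Pi.single_apply, Finset.sum_apply]
  rw [← e.tsum_eq]
  refine tsum_congr fun m => ?_
  rw [setIntegral_congr_set hcube]
  refine integral_congr_ae (Eventually.of_forall fun z => ?_)
  show f (((e m : (Submodule.span ℤ (Set.range (Pi.basisFun ℝ ι)))) : ι → ℝ) +ᵥ z) = f (z + lp m)
  rw [vadd_eq_add, add_comm]
  rfl

/-- the Fourier transform at an integer point -/
noncomputable def ghat (g : (ι → ℝ) → ℂ) (k : ι → ℤ) : ℂ := ∫ x, ech (-k) x * g x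

lemma GD.ech_mul {g : (ι → ℝ) → ℂ} (hg : GD g) (k : ι → ℤ) : GD fun x => ech k x * g x := by
  obtain ⟨C, c, hc, h⟩ := hg
  refine ⟨C, c, hc, fun z => ?_⟩
  rw [norm_mul, norm_ech, one_mul]
  exact h z

lemma coeff_perT {g : (ι → ℝ) → ℂ} (hg : GD g) (hc : Continuous g) (k : ι → ℤ) :
    UnitAddTorus.mFourierCoeff (perT hg hc) k = ghat g k := by
  rw [UnitAddTorus.mFourierCoeff_eq_integral (perT hg hc) k 0]
  have hf : GD fun x => ech (-k) x * g x := hg.ech_mul (-k)
  have hfc : Continuous fun x => ech (-k) x * g x := (continuous_ech _).mul hc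
  unfold ghat
  rw [integral_cube _ (hf.integrable hfc)]
  have hmeas : MeasurableSet {x : ι → ℝ | ∀ i, x i ∈ Ioc (0 : ℝ) (0 + 1)} := by
    have e1 : {x : ι → ℝ | ∀ i, x i ∈ Ioc (0 : ℝ) (0 + 1)} =
        Set.pi Set.univ fun _ => Ioc (0 : ℝ) (0 + 1) := by
      ext x
      simp
    rw [e1]
    exact MeasurableSet.univ_pi fun _ => measurableSet_Ioc
  have hvol : volume {x : ι → ℝ | ∀ i, x i ∈ Ioc (0 : ℝ) (0 + 1)} = 1 := by
    have e1 : {x : ι → ℝ | ∀ i, x i ∈ Ioc (0 : ℝ) (0 + 1)} =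
        Set.pi Set.univ fun _ => Ioc (0 : ℝ) (0 + 1) := by
      ext x
      simp
    rw [e1, volume_pi_pi]
    simp
  have e0 : {x : ι → ℝ | ∀ i, x i ∈ Ioc ((0 : ι → ℝ) i) ((0 : ι → ℝ) i + 1)} =
      {x : ι → ℝ | ∀ i, x i ∈ Ioc (0 : ℝ) (0 + 1)} := rfl
  rw [e0]
  obtain ⟨C, c, hC, hc', hb⟩ := gd_bound hf 1
  have hnorm : ∀ x ∈ {x : ι → ℝ | ∀ i, x i ∈ Ioc (0 : ℝ) (0 + 1)}, ‖x‖ ≤ 1 := by
    intro x hx
    rw [pi_norm_le_iff_of_nonneg zero_le_one]
    intro i
    have := hx i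
    rw [Real.norm_eq_abs, abs_le]
    constructor <;> linarith [this.1, this.2]
  have hint : ∀ m : ι → ℤ, Integrable (fun z => ech (-k) (z + lp m) * g (z + lp m))
      (volume.restrict {x : ι → ℝ | ∀ i, x i ∈ Ioc (0 : ℝ) (0 + 1)}) := fun m =>
    ((hf.integrable hfc).comp_add_right (lp m)).integrableOn
  have hsum : Summable fun m : ι → ℤ =>
      ∫ z in {x : ι → ℝ | ∀ i, x i ∈ Ioc (0 : ℝ) (0 + 1)}, ‖ech (-k) (z + lp m) * g (z + lp m)‖ := by
    refine Summable.of_nonneg_of_le (fun m => integral_nonneg fun _ => norm_nonneg _)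
      (fun m => ?_) ((summable_exp_int (ι := ι) hc').mul_left C)
    calc ∫ z in {x : ι → ℝ | ∀ i, x i ∈ Ioc (0 : ℝ) (0 + 1)}, ‖ech (-k) (z + lp m) * g (z + lp m)‖
        ≤ ∫ _z in {x : ι → ℝ | ∀ i, x i ∈ Ioc (0 : ℝ) (0 + 1)}, C * Real.exp (-c * ‖lp m‖ ^ 2) := by
          refine setIntegral_mono_on (hint m).norm ?_ hmeas fun x hx => hb x (hnorm x hx) m
          refine integrable_const_iff.2 (Or.inr ?_)
          rw [isFiniteMeasure_iff, Measure.restrict_apply_univ, hvol]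
          exact ENNReal.one_lt_top
      _ = C * Real.exp (-c * ‖lp m‖ ^ 2) := by
          rw [setIntegral_const, measureReal_def, hvol]
          simp
  rw [← integral_tsum_of_summable_integral_norm hint hsum |>.symm]
  refine (setIntegral_congr_fun hmeas fun x _ => ?_)
  show UnitAddTorus.mFourier (-k) (toT x) • perT hg hc (toT x) = _
  rw [mFourier_toT, perT_apply, smul_eq_mul]
  unfold per
  rw [← tsum_mul_left]
  refine tsum_congr fun m => ?_
  rw [ech_add_int]

/-- **Poisson summation** -/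
theorem poisson {g : (ι → ℝ) → ℂ} (hg : GD g) (hc : Continuous g) (hs : Summable (ghat g))
    (z : ι → ℝ) : ∑' m : ι → ℤ, g (z + lp m) = ∑' k : ι → ℤ, ghat g k * ech k z := by
  have h1 : UnitAddTorus.mFourierCoeff (perT hg hc) = ghat g := funext fun k => coeff_perT hg hc k
  have h2 := UnitAddTorus.hasSum_mFourier_series_apply_of_summable (f := perT hg hc)
    (by rw [h1]; exact hs) (toT z)
  rw [perT_apply, h1] at h2
  rw [show ∑' m : ι → ℤ, g (z + lp m) = per g z from rfl, ← h2.tsum_eq]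
  refine tsum_congr fun k => ?_
  rw [mFourier_toT, smul_eq_mul]

end

end Pool.Agent.Y773
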